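import Pool.Agent.Helper82.GS.Topo

/-!
# Change of charts and the smooth topology (module CL-BA2)
-/

set_option maxSynthPendingDepth 3

namespace Pool.Agent.Helper82.BA

open Filter Topology Pool.Agent.Helper82.GS
open scoped ContDiff Manifold

variable {S : Type*} [TopologicalSpace S] [ChartedSpace P2 S]

/-- The pull back of bilinear forms by a linear map. -/
noncomputable def pull (A : P2 →L[ℝ] P2) : Bil →L[ℝ] Bil :=
  LinearMap.toContinuousLinearMap
    { toFun := fun B => ((B.comp A).flip.comp A).flip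
      map_add' := fun B C => by ext v w; simp
      map_smul' := fun c B => by ext v w; simp }

/-- `pull A B v w = B (A v) (A w)`. -/
theorem pull_apply (A : P2 →L[ℝ] P2) (B : Bil) (v w : P2) : pull A B v w = B (A v) (A w) := by
  simp [pull]

/-- `pull` is smooth (it is quadratic): write `pull A` as the sum over the basis `bilBasis i j`-coordinates, or note that
`A ↦ pull A B` is a composition of continuous bilinear maps for each `B` and `Bil` is finite dimensional
(`contDiff_clm_apply_iff`-type lemma: a map into `Bil →L[ℝ] Bil` is smooth iff all its evaluations are, finite dimension). -/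
theorem contDiff_pull : ContDiff ℝ ∞ (pull : (P2 →L[ℝ] P2) → (Bil →L[ℝ] Bil)) := by
  refine contDiff_clm_apply_iff.2 fun B => contDiff_clm_apply_iff.2 fun v =>
    contDiff_clm_apply_iff.2 fun w => ?_
  have h1 : ∀ u : P2, ContDiff ℝ ∞ fun A : P2 →L[ℝ] P2 => A u := fun u =>
    contDiff_id.clm_apply contDiff_const
  have h2 : ContDiff ℝ ∞ fun A : P2 →L[ℝ] P2 => B (A v) (A w) :=
    (B.contDiff.comp (h1 v)).clm_apply (h1 w)
  have h3 : (fun A : P2 →L[ℝ] P2 => pull A B v w) = fun A => B (A v) (A w) := by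
    funext A
    exact pull_apply A B v w
  rw [h3]
  exact h2

/-- Comparison of two charts: the derivatives of order `r` of the difference of two metrics in the chart `e` on `K` are bounded by the
derivatives of order at most `r` of the difference in the chart `e'` on `K'`, if `K'` contains the image of `K`.

Proof.  `O = e.target ∩ e.symm ⁻¹' e'.source` is open, contains `K`; `τ = e' ∘ e.symm` is smooth on `O` (transition map; `IsManifold`);
on `O`: `g.comp e y - h.comp e y = pull (fderiv ℝ τ y) ((g.comp e' - h.comp e') (τ y))` (`RMetric.change`).  So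
`‖iteratedFDeriv ℝ r (..) y‖ ≤ ∑ i ∈ range (r+1), r.choose i * ‖iteratedFDerivWithin ℝ i (pull ∘ fderiv τ) O y‖ *
‖iteratedFDerivWithin ℝ (r - i) ((g.comp e' - h.comp e') ∘ τ) O y‖` (`norm_iteratedFDerivWithin_clm_apply`), the first factors are
bounded on the compact `K` (continuity), the second by `(r - i)! δ B^(r - i)` (`norm_iteratedFDerivWithin_comp_le`, `B ≥ 1` a bound on `K` for
`‖iteratedFDerivWithin ℝ j τ O‖`, `1 ≤ j ≤ r`).  `iteratedFDerivWithin_of_isOpen`. -/
theorem change_bound [IsManifold (modelWithCornersSelf ℝ P2) ∞ S] {e e' : OpenPartialHomeomorph S P2} (he : e ∈ atlas P2 S)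
    (he' : e' ∈ atlas P2 S) {K K' : Set P2} (hK : IsCompact K) (hKe : K ⊆ e.target) (hKe' : K' ⊆ e'.target)
    (hKK : ∀ y ∈ K, e.symm y ∈ e'.source ∧ e' (e.symm y) ∈ K') (r : ℕ) :
    ∃ C : ℝ, 0 ≤ C ∧ ∀ (g h : RMetric S) (δ : ℝ), 0 ≤ δ →
      (∀ j ≤ r, ∀ z ∈ K', ‖iteratedFDeriv ℝ j (g.comp e') z - iteratedFDeriv ℝ j (h.comp e') z‖ ≤ δ) →
      ∀ y ∈ K, ‖iteratedFDeriv ℝ r (g.comp e) y - iteratedFDeriv ℝ r (h.comp e) y‖ ≤ C * δ := by
  obtain ⟨O, hO⟩ : ∃ O, O = e.target ∩ e.symm ⁻¹' e'.source := ⟨_, rfl⟩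
  obtain ⟨τ, hτ⟩ : ∃ τ : P2 → P2, τ = e' ∘ e.symm := ⟨_, rfl⟩
  have hOo : IsOpen O := by
    rw [hO]
    exact e.isOpen_inter_preimage_symm e'.open_source
  have hKO : K ⊆ O := fun y hy => by
    rw [hO]
    exact ⟨hKe hy, (hKK y hy).1⟩
  have hτs : ContDiffOn ℝ ∞ τ O := by
    rw [hO, hτ]
    exact trans_smooth he' he
  have hτd : ContDiffOn ℝ ∞ (fun y => pull (fderiv ℝ τ y)) O :=
    contDiff_pull.comp_contDiffOn (hτs.fderiv_of_isOpen hOo (by simp))
  have hmaps : Set.MapsTo τ O e'.target := fun y hy => by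
    rw [hO] at hy
    rw [hτ]
    exact e'.map_source hy.2
  have hbd : ∀ i : ℕ, ∃ M : ℝ, ∀ y ∈ K,
      ‖iteratedFDerivWithin ℝ i (fun y => pull (fderiv ℝ τ y)) O y‖ ≤ M := fun i =>
    hK.exists_bound_of_continuousOn
      ((hτd.continuousOn_iteratedFDerivWithin (by exact_mod_cast le_top) hOo.uniqueDiffOn).mono hKO)
  have hbd2 : ∀ i : ℕ, ∃ M : ℝ, ∀ y ∈ K, ‖iteratedFDerivWithin ℝ i τ O y‖ ≤ M := fun i =>
    hK.exists_bound_of_continuousOn
      ((hτs.continuousOn_iteratedFDerivWithin (by exact_mod_cast le_top) hOo.uniqueDiffOn).mono hKO)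
  choose M₁ hM₁ using hbd
  choose M₂ hM₂ using hbd2
  obtain ⟨B, hB⟩ : ∃ B : ℝ, B = 1 + ∑ i ∈ Finset.range (r + 1), |M₂ i| := ⟨_, rfl⟩
  have hB1 : 1 ≤ B := by
    rw [hB]
    have : 0 ≤ ∑ i ∈ Finset.range (r + 1), |M₂ i| := Finset.sum_nonneg fun i _ => abs_nonneg _
    linarith
  have hBi : ∀ i ≤ r, |M₂ i| ≤ B := fun i hi => by
    rw [hB]
    have := Finset.single_le_sum (f := fun i => |M₂ i|) (fun i _ => abs_nonneg _)
      (Finset.mem_range.2 (Nat.lt_succ_of_le hi))
    linarith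
  refine ⟨∑ i ∈ Finset.range (r + 1), (r.choose i : ℝ) * |M₁ i| *
    (((r - i).factorial : ℝ) * B ^ (r - i)), Finset.sum_nonneg fun i _ => by positivity,
    fun g h δ hδ hgh y hy => ?_⟩
  obtain ⟨G', hG'⟩ : ∃ G' : P2 → Bil, G' = g.comp e' - h.comp e' := ⟨_, rfl⟩
  have hG's : ContDiffOn ℝ ∞ G' e'.target := by
    rw [hG']
    exact (g.smooth e' he').sub (h.smooth e' he')
  have hG'b : ∀ i ≤ r, ∀ z ∈ K', ‖iteratedFDerivWithin ℝ i G' e'.target z‖ ≤ δ := by
    intro i hi z hz
    have hzt := hKe' hz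
    have h0 := iteratedFDerivWithin_of_isOpen (𝕜 := ℝ) (f := G') i e'.open_target hzt
    rw [h0, hG', iteratedFDeriv_sub_apply]
    · exact hgh i hi z hz
    · exact ((g.smooth e' he').contDiffAt (e'.open_target.mem_nhds hzt)).of_le
        (by exact_mod_cast le_top)
    · exact ((h.smooth e' he').contDiffAt (e'.open_target.mem_nhds hzt)).of_le
        (by exact_mod_cast le_top)
  have hyO := hKO hy
  have hyt := hKe hy
  have heq : Set.EqOn (g.comp e - h.comp e) (fun y => (pull (fderiv ℝ τ y)) ((G' ∘ τ) y)) O := by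
    intro z hz
    rw [hO] at hz
    have hx : e.symm z ∈ e.source := e.map_target hz.1
    have h1 := g.change e he e' he' (e.symm z) hx hz.2
    have h2 := h.change e he e' he' (e.symm z) hx hz.2
    rw [e.right_inv hz.1] at h1 h2
    ext v w
    rw [pull_apply, Pi.sub_apply]
    have h3 : (g.comp e z - h.comp e z) v w = g.comp e z v w - h.comp e z v w := by simp
    rw [h3, h1 v w, h2 v w, hG', hτ]
    simp
  have h0 : iteratedFDeriv ℝ r (g.comp e) y - iteratedFDeriv ℝ r (h.comp e) y =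
      iteratedFDerivWithin ℝ r (fun y => (pull (fderiv ℝ τ y)) ((G' ∘ τ) y)) O y := by
    have h1 : iteratedFDeriv ℝ r (g.comp e) y - iteratedFDeriv ℝ r (h.comp e) y =
        iteratedFDeriv ℝ r (g.comp e - h.comp e) y := by
      rw [iteratedFDeriv_sub_apply]
      · exact ((g.smooth e he).contDiffAt (e.open_target.mem_nhds hyt)).of_le
          (by exact_mod_cast le_top)
      · exact ((h.smooth e he).contDiffAt (e.open_target.mem_nhds hyt)).of_le
          (by exact_mod_cast le_top)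
    rw [h1]
    have h2 := iteratedFDerivWithin_of_isOpen (𝕜 := ℝ) (f := g.comp e - h.comp e) r hOo hyO
    rw [← h2]
    exact iteratedFDerivWithin_congr heq hyO r
  rw [h0]
  have hcomp : ContDiffOn ℝ ∞ (G' ∘ τ) O := hG's.comp hτs hmaps
  refine (norm_iteratedFDerivWithin_clm_apply hτd hcomp hOo.uniqueDiffOn hyO
    (by exact_mod_cast le_top)).trans ?_
  rw [Finset.sum_mul]
  refine Finset.sum_le_sum fun i hi => ?_
  have hτK : τ y ∈ K' := by
    rw [hτ]
    exact (hKK y hy).2
  have h5 : ‖iteratedFDerivWithin ℝ (r - i) (G' ∘ τ) O y‖ ≤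
      ((r - i).factorial : ℝ) * δ * B ^ (r - i) := by
    refine norm_iteratedFDerivWithin_comp_le hG's hτs ENat.LEInfty.out
      e'.open_target.uniqueDiffOn hOo.uniqueDiffOn hmaps hyO
      (fun j hj => hG'b j (hj.trans (Nat.sub_le _ _)) _ hτK) fun j hj1 hj => ?_
    have h6 : ‖iteratedFDerivWithin ℝ j τ O y‖ ≤ B :=
      (hM₂ j y hy).trans ((le_abs_self _).trans (hBi j (hj.trans (Nat.sub_le _ _))))
    exact h6.trans (le_self_pow₀ hB1 (by omega))
  calc (r.choose i : ℝ) * ‖iteratedFDerivWithin ℝ i (fun y => pull (fderiv ℝ τ y)) O y‖ *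
        ‖iteratedFDerivWithin ℝ (r - i) (G' ∘ τ) O y‖ ≤
        (r.choose i : ℝ) * |M₁ i| * (((r - i).factorial : ℝ) * δ * B ^ (r - i)) := by
        refine mul_le_mul ?_ h5 (norm_nonneg _) (by positivity)
        exact mul_le_mul_of_nonneg_left ((hM₁ i y hy).trans (le_abs_self _)) (by positivity)
    _ = (r.choose i : ℝ) * |M₁ i| * (((r - i).factorial : ℝ) * B ^ (r - i)) * δ := by ring

end Pool.Agent.Helper82.BA
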