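import Mathlib

/-!
# Limits of sequences of smooth functions (module CL-BA1)
-/

set_option maxSynthPendingDepth 3

namespace Pool.Agent.Helper82.BA

open Filter Topology
open scoped ContDiff

/-- If all derivatives of the smooth functions `f n` on the open set `D` are uniformly Cauchy on the compact subsets of `D`, then they
converge uniformly on these to the derivatives of a smooth function.

Proof.  For `y ∈ D`, `r : ℕ` let `p y r` be the limit of `iteratedFDeriv ℝ r (f n) y` (complete space; `K = {y}`), and `G y` the limit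
of `f n y`.  On compact `K ⊆ D` the convergence is uniform (`UniformCauchySeqOn.tendstoUniformlyOn_of_tendsto`), so it is locally
uniform on `D` (`D` open in a locally compact space, `tendstoLocallyUniformlyOn_iff_forall_isCompact`).  Derivatives:
`iteratedFDeriv_succ_eq_comp_left` says that `fderiv ℝ (iteratedFDeriv ℝ r (f n)) y = (iteratedFDeriv ℝ (r+1) (f n) y).curryLeft`; by
`hasFDerivAt_of_tendstoLocallyUniformlyOn` the function `p · r` has derivative `(p y (r+1)).curryLeft` at `y ∈ D`; so `p` is a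
`HasFTaylorSeriesUpToOn ∞ G p D`, hence `G` is `ContDiffOn ℝ ∞` and `p y r = iteratedFDerivWithin ℝ r G D y = iteratedFDeriv ℝ r G y`
(`HasFTaylorSeriesUpToOn.eq_iteratedFDerivWithin_of_uniqueDiffOn`, `iteratedFDerivWithin_of_isOpen`). -/
theorem exists_limit {E F : Type*} [NormedAddCommGroup E] [NormedSpace ℝ E] [FiniteDimensional ℝ E] [NormedAddCommGroup F]
    [NormedSpace ℝ F] [CompleteSpace F] {D : Set E} (hD : IsOpen D) {f : ℕ → E → F} (hf : ∀ n, ContDiffOn ℝ ∞ (f n) D)
    (hc : ∀ K ⊆ D, IsCompact K → ∀ r : ℕ, UniformCauchySeqOn (fun n => iteratedFDeriv ℝ r (f n)) atTop K) :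
    ∃ G : E → F, ContDiffOn ℝ ∞ G D ∧
      ∀ K ⊆ D, IsCompact K → ∀ r : ℕ,
        TendstoUniformlyOn (fun n => iteratedFDeriv ℝ r (f n)) (iteratedFDeriv ℝ r G) atTop K := by
  have : ProperSpace E := FiniteDimensional.proper ℝ E
  have hex : ∀ (y : E) (r : ℕ), ∃ q : ContinuousMultilinearMap ℝ (fun _ : Fin r => E) F,
      y ∈ D → Tendsto (fun n => iteratedFDeriv ℝ r (f n) y) atTop (𝓝 q) := by
    intro y r
    by_cases hy : y ∈ D
    · obtain ⟨q, hq⟩ := cauchySeq_tendsto_of_complete
        ((hc {y} (Set.singleton_subset_iff.2 hy) isCompact_singleton r).cauchySeq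
          (Set.mem_singleton y))
      exact ⟨q, fun _ => hq⟩
    · exact ⟨0, fun h => absurd h hy⟩
  choose q hq using hex
  have hunif : ∀ K ⊆ D, IsCompact K → ∀ r : ℕ,
      TendstoUniformlyOn (fun n => iteratedFDeriv ℝ r (f n)) (fun y => q y r) atTop K :=
    fun K hKD hK r => (hc K hKD hK r).tendstoUniformlyOn_of_tendsto fun y hy => hq y r (hKD hy)
  have hloc : ∀ r : ℕ,
      TendstoLocallyUniformlyOn (fun n => iteratedFDeriv ℝ r (f n)) (fun y => q y r) atTop D :=
    fun r => (tendstoLocallyUniformlyOn_iff_forall_isCompact hD).2 fun K hKD hK => hunif K hKD hK r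
  have hder : ∀ (r : ℕ) (y : E), y ∈ D → HasFDerivAt (fun y => q y r)
      (continuousMultilinearCurryLeftEquiv ℝ (fun _ : Fin (r + 1) => E) F (q y (r + 1))) y := by
    intro r y hy
    have h1 : TendstoLocallyUniformlyOn
        (fun n y => continuousMultilinearCurryLeftEquiv ℝ (fun _ : Fin (r + 1) => E) F
          (iteratedFDeriv ℝ (r + 1) (f n) y))
        (fun y => continuousMultilinearCurryLeftEquiv ℝ (fun _ : Fin (r + 1) => E) F
          (q y (r + 1))) atTop D :=
      (continuousMultilinearCurryLeftEquiv ℝ (fun _ : Fin (r + 1) => E)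
        F).isometry.uniformContinuous.comp_tendstoLocallyUniformlyOn (hloc (r + 1))
    refine hasFDerivAt_of_tendstoLocallyUniformlyOn hD h1 (fun n x hx => ?_)
      (fun x hx => hq x r hx) hy
    have h2 : ContDiffAt ℝ ∞ (f n) x := (hf n).contDiffAt (hD.mem_nhds hx)
    have h3 : ContDiffAt ℝ 1 (iteratedFDeriv ℝ r (f n)) x :=
      h2.iteratedFDeriv_right (by exact_mod_cast le_top)
    have h4 : DifferentiableAt ℝ (iteratedFDeriv ℝ r (f n)) x := h3.differentiableAt one_ne_zero
    have h5 : continuousMultilinearCurryLeftEquiv ℝ (fun _ : Fin (r + 1) => E) F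
        (iteratedFDeriv ℝ (r + 1) (f n) x) = fderiv ℝ (iteratedFDeriv ℝ r (f n)) x := by
      rw [iteratedFDeriv_succ_eq_comp_left]
      simp
    rw [h5]
    exact h4.hasFDerivAt
  have hT : HasFTaylorSeriesUpToOn (((⊤ : ℕ∞) : WithTop ℕ∞))
      (fun y => (q y 0).curry0) (fun y => (q y : FormalMultilinearSeries ℝ E F)) D := by
    refine ⟨fun x _ => rfl, fun m _ x hx => ?_, fun m _ x hx => ?_⟩
    · exact (hder m x hx).hasFDerivWithinAt
    · exact (hder m x hx).continuousAt.continuousWithinAt
  refine ⟨fun y => (q y 0).curry0, hT.contDiffOn, fun K hKD hK r => ?_⟩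
  refine (hunif K hKD hK r).congr_right fun y hy => ?_
  have h1 := hT.eq_iteratedFDerivWithin_of_uniqueDiffOn (m := r) (by exact_mod_cast le_top)
    hD.uniqueDiffOn (hKD hy)
  have h2 := iteratedFDerivWithin_of_isOpen (𝕜 := ℝ) (f := fun y => (q y 0).curry0) r hD (hKD hy)
  exact h1.trans h2

end Pool.Agent.Helper82.BA
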