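import Pool.Agent.Helper82.BA.Ind
import Pool.Agent.Helper82.BA.Limit

/-!
# The range of the embedding is closed (module CL-BA6)
-/

set_option maxSynthPendingDepth 3

namespace Pool.Agent.Helper82.BA

open Filter Topology Pool.Agent.Helper82.GS
open scoped ContDiff Manifold

variable {S : Type*} [TopologicalSpace S] [ChartedSpace P2 S]

/-- If `Phi A (g n)` converges then in every chart all derivatives of `(g n).comp e` are uniformly Cauchy on compact sets (`fam_bound`), so they
converge (`exists_limit`). -/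
theorem exists_limit_chart [IsManifold (modelWithCornersSelf ℝ P2) ∞ S] (A : Fam S) {g : ℕ → RMetric S}
    {F : ∀ p : Fin A.m × ℕ, C(A.K p.1, P2 [×p.2]→L[ℝ] Bil)} (hF : Tendsto (fun n => Phi A (g n)) atTop (𝓝 F))
    {e : OpenPartialHomeomorph S P2} (he : e ∈ atlas P2 S) :
    ∃ G : P2 → Bil, ContDiffOn ℝ ∞ G e.target ∧ ∀ K ⊆ e.target, IsCompact K → ∀ r : ℕ,
      TendstoUniformlyOn (fun n => iteratedFDeriv ℝ r ((g n).comp e)) (iteratedFDeriv ℝ r G) atTop K := by
  refine exists_limit e.open_target (fun n => (g n).smooth e he) ?_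
  intro K hKe hK r
  rw [Metric.uniformCauchySeqOn_iff]
  intro ε hε
  obtain ⟨C, hC, hbound⟩ := fam_bound A he hK hKe r
  have hδ : 0 < ε / (2 * (C + 1)) := by positivity
  have h1 : ∀ p : Fin A.m × ℕ, ∃ N : ℕ, ∀ m ≥ N, ∀ n ≥ N,
      dist (Phi A (g m) p) (Phi A (g n) p) < ε / (2 * (C + 1)) := fun p =>
    Metric.cauchySeq_iff.1 (tendsto_pi_nhds.1 hF p).cauchySeq _ hδ
  choose N hN using h1
  refine ⟨Finset.univ.sup fun q : Fin A.m × Fin (r + 1) => N (q.1, q.2), fun m hm n hn y hy => ?_⟩
  rw [dist_eq_norm]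
  have h2 := hbound (g m) (g n) (ε / (2 * (C + 1))) hδ.le (fun i j hj z hz => by
    have hq : N (i, j) ≤ Finset.univ.sup fun q : Fin A.m × Fin (r + 1) => N (q.1, q.2) :=
      Finset.le_sup (f := fun q : Fin A.m × Fin (r + 1) => N (q.1, q.2))
        (Finset.mem_univ (i, (⟨j, by omega⟩ : Fin (r + 1))))
    have h3 := hN (i, j) m (hq.trans hm) n (hq.trans hn)
    have h4 := ContinuousMap.dist_apply_le_dist (f := Phi A (g m) (i, j)) (g := Phi A (g n) (i, j)) ⟨z, hz⟩
    rw [dist_eq_norm] at h4
    exact h4.trans h3.le) y hy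
  refine lt_of_le_of_lt h2 ?_
  rw [mul_div_assoc', div_lt_iff₀ (by positivity)]
  nlinarith

private theorem ba6_eval (v w : P2) : Continuous fun B : Bil => B v w := by
  fun_prop

private theorem ba6_zero {f : ℕ → P2 → Bil} {G : P2 → Bil} {K : Set P2}
    (h : TendstoUniformlyOn (fun n => iteratedFDeriv ℝ 0 (f n)) (iteratedFDeriv ℝ 0 G) atTop K) {y : P2} (hy : y ∈ K) :
    Tendsto (fun n => f n y) atTop (𝓝 (G y)) := by
  have h1 := h.tendsto_at hy
  have h2 := ((continuousMultilinearCurryFin0 ℝ P2 Bil).continuous.tendsto _).comp h1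
  refine (h2.congr fun n => ?_).trans_eq ?_
  all_goals simp [iteratedFDeriv_zero_eq_comp]

/-- The transition map is smooth. -/
private theorem ba6_trans [IsManifold (modelWithCornersSelf ℝ P2) ∞ S]
    {e e' : OpenPartialHomeomorph S P2} (he : e ∈ atlas P2 S) (he' : e' ∈ atlas P2 S) {x : S}
    (hx : x ∈ e.source) (hx' : x ∈ e'.source) : DifferentiableAt ℝ (e' ∘ e.symm) (e x) := by
  have h1 : e.symm ≫ₕ e' ∈ contDiffGroupoid ∞ (modelWithCornersSelf ℝ P2) :=
    HasGroupoid.compatible he he'
  have h2 := contMDiffOn_of_mem_contDiffGroupoid h1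
  rw [contMDiffOn_iff_contDiffOn] at h2
  have h3 : e x ∈ (e.symm ≫ₕ e').source := by
    rw [OpenPartialHomeomorph.trans_source]
    refine ⟨e.map_source hx, ?_⟩
    rw [Set.mem_preimage, e.left_inv hx]
    exact hx'
  have h4 := h2.contDiffAt ((e.symm ≫ₕ e').open_source.mem_nhds h3)
  exact h4.differentiableAt (by simp)

private theorem ba6_inv [IsManifold (modelWithCornersSelf ℝ P2) ∞ S]
    {e e' : OpenPartialHomeomorph S P2} (he : e ∈ atlas P2 S) (he' : e' ∈ atlas P2 S) {x : S}
    (hx : x ∈ e.source) (hx' : x ∈ e'.source) (v : P2) :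
    fderiv ℝ (e ∘ e'.symm) (e' x) (fderiv ℝ (e' ∘ e.symm) (e x) v) = v := by
  have h1 := ba6_trans he he' hx hx'
  have h2 := ba6_trans he' he hx' hx
  have h3 : (e' ∘ e.symm) (e x) = e' x := by simp [e.left_inv hx]
  rw [← h3] at h2
  have h4 := fderiv_comp (e x) h2 h1
  have h5 : ((e ∘ e'.symm) ∘ (e' ∘ e.symm)) =ᶠ[𝓝 (e x)] id := by
    have h6 : (e.symm ≫ₕ e').source ∈ 𝓝 (e x) := by
      refine (e.symm ≫ₕ e').open_source.mem_nhds ?_
      rw [OpenPartialHomeomorph.trans_source]
      refine ⟨e.map_source hx, ?_⟩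
      rw [Set.mem_preimage, e.left_inv hx]
      exact hx'
    filter_upwards [h6] with y hy
    rw [OpenPartialHomeomorph.trans_source] at hy
    have hy1 : y ∈ e.target := hy.1
    have hy2 : e.symm y ∈ e'.source := hy.2
    simp only [Function.comp_apply, id]
    rw [e'.left_inv hy2, e.right_inv hy1]
  rw [h5.fderiv_eq, fderiv_id, h3] at h4
  have h7 := congrArg (fun L : P2 →L[ℝ] P2 => L v) h4
  simp only [ContinuousLinearMap.coe_id', id, ContinuousLinearMap.coe_comp, Function.comp_apply] at h7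
  exact h7.symm

/-- The limit is a metric.  Components: the limits `G e` of `exists_limit_chart`, zero off the target (`comp e y = lim (g n).comp e y`
pointwise).  `change`: limit of the identities.  `posDef`: symmetric and semidefinite as a limit; on `A.K i`,
`gdet ((g n).comp (A.e i) z) * Psi A (g n) i z = 1` gives in the limit `gdet (comp (A.e i) z) ≠ 0`, so positive definite there
(`posDef_of_gdet`); at an arbitrary point `x = e.symm y` take `i` from `A.cover`; if `comp e y v v = 0` then with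
`w = fderiv (A.e i ∘ e.symm) v` one has `comp (A.e i) _ w w = 0` (`change`), so `w = 0`, and `v = fderiv (e ∘ (A.e i).symm) w = 0` (chain rule). -/
theorem exists_limit_metric [IsManifold (modelWithCornersSelf ℝ P2) ∞ S] (A : Fam S) {g : ℕ → RMetric S} {F : Tgt A}
    (hF : Tendsto (fun n => Theta A (g n)) atTop (𝓝 F)) :
    ∃ h : RMetric S, ∀ e ∈ atlas P2 S, ∀ K ⊆ e.target, IsCompact K → ∀ r : ℕ,
      TendstoUniformlyOn (fun n => iteratedFDeriv ℝ r ((g n).comp e)) (iteratedFDeriv ℝ r (h.comp e)) atTop K := by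
  classical
  have hF1 : Tendsto (fun n => Phi A (g n)) atTop (𝓝 F.1) := (continuous_fst.tendsto F).comp hF
  have hF2 : Tendsto (fun n => Psi A (g n)) atTop (𝓝 F.2) := (continuous_snd.tendsto F).comp hF
  have hG0 : ∀ e ∈ atlas P2 S, ∃ G : P2 → Bil, ContDiffOn ℝ ∞ G e.target ∧ ∀ K ⊆ e.target, IsCompact K → ∀ r : ℕ,
      TendstoUniformlyOn (fun n => iteratedFDeriv ℝ r ((g n).comp e)) (iteratedFDeriv ℝ r G) atTop K :=
    fun e he => exists_limit_chart A hF1 he
  choose! G hGs hGt using hG0
  have hpt : ∀ e ∈ atlas P2 S, ∀ y ∈ e.target, Tendsto (fun n => (g n).comp e y) atTop (𝓝 (G e y)) := by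
    intro e he y hy
    exact ba6_zero (hGt e he {y} (Set.singleton_subset_iff.2 hy) isCompact_singleton 0) (Set.mem_singleton y)
  have hev : ∀ e ∈ atlas P2 S, ∀ y ∈ e.target, ∀ v w : P2,
      Tendsto (fun n => (g n).comp e y v w) atTop (𝓝 (G e y v w)) := fun e he y hy v w =>
    ((ba6_eval v w).tendsto _).comp (hpt e he y hy)
  have hsymm : ∀ e ∈ atlas P2 S, ∀ y ∈ e.target, ∀ v w : P2, G e y v w = G e y w v := by
    intro e he y hy v w
    refine tendsto_nhds_unique (hev e he y hy v w) ((hev e he y hy w v).congr fun n => ?_)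
    exact ((g n).posDef e he y hy).1 w v
  have hnonneg : ∀ e ∈ atlas P2 S, ∀ y ∈ e.target, ∀ v : P2, 0 ≤ G e y v v := by
    intro e he y hy v
    refine ge_of_tendsto' (hev e he y hy v v) fun n => ?_
    by_cases hv : v = 0
    · simp [hv]
    · exact (((g n).posDef e he y hy).2 v hv).le
  have hchange : ∀ e ∈ atlas P2 S, ∀ e' ∈ atlas P2 S, ∀ x ∈ e.source, x ∈ e'.source → ∀ v w : P2,
      G e (e x) v w =
        G e' (e' x) (fderiv ℝ (e' ∘ e.symm) (e x) v) (fderiv ℝ (e' ∘ e.symm) (e x) w) := by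
    intro e he e' he' x hx hx' v w
    refine tendsto_nhds_unique (hev e he (e x) (e.map_source hx) v w)
      ((hev e' he' (e' x) (e'.map_source hx') _ _).congr fun n => ?_)
    exact ((g n).change e he e' he' x hx hx' v w).symm
  have hpos0 : ∀ (i : Fin A.m) (z : P2), z ∈ A.K i → PosDef (G (A.e i) z) := by
    intro i z hz
    have hzt := A.hKe i hz
    refine posDef_of_gdet (hsymm _ (A.he i) z hzt) (hnonneg _ (A.he i) z hzt) ?_
    intro h0
    have h1 : Tendsto (fun n => gdet ((g n).comp (A.e i) z)) atTop (𝓝 (gdet (G (A.e i) z))) :=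
      (continuous_gdet.tendsto _).comp (hpt _ (A.he i) z hzt)
    have h2 : Tendsto (fun n => Psi A (g n) i ⟨z, hz⟩) atTop (𝓝 (F.2 i ⟨z, hz⟩)) := by
      have h3 := tendsto_pi_nhds.1 hF2 i
      have h4 : Continuous fun f : C(A.K i, ℝ) => f ⟨z, hz⟩ := continuous_eval_const _
      exact (h4.tendsto _).comp h3
    have h3 := h1.mul h2
    rw [h0, zero_mul] at h3
    have h4 : (fun n => gdet ((g n).comp (A.e i) z) * Psi A (g n) i ⟨z, hz⟩) = fun _ => (1 : ℝ) := by
      funext n
      have h5 := gdet_pos ((g n).posDef _ (A.he i) z hzt)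
      exact mul_inv_cancel₀ h5.ne'
    rw [h4] at h3
    have := tendsto_nhds_unique h3 tendsto_const_nhds
    norm_num at this
  have hpos : ∀ e ∈ atlas P2 S, ∀ y ∈ e.target, PosDef (G e y) := by
    intro e he y hy
    refine ⟨hsymm e he y hy, fun v hv => lt_of_le_of_ne (hnonneg e he y hy v) fun h0 => hv ?_⟩
    obtain ⟨i, hi, hiK⟩ := A.cover (e.symm y)
    have hx : e.symm y ∈ e.source := e.map_target hy
    have hxe : e (e.symm y) = y := e.right_inv hy
    have h1 := hchange e he (A.e i) (A.he i) (e.symm y) hx hi v v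
    rw [hxe] at h1
    rw [← h0] at h1
    have h2 := hpos0 i _ (interior_subset hiK)
    have h3 : fderiv ℝ (A.e i ∘ e.symm) y v = 0 := by
      by_contra h4
      have h5 := h2.2 _ h4
      rw [← h1] at h5
      exact lt_irrefl _ h5
    have h4 := ba6_inv he (A.he i) hx hi v
    rw [hxe, h3, map_zero] at h4
    exact h4.symm
  let h : RMetric S :=
    { comp := fun e y => if e ∈ atlas P2 S ∧ y ∈ e.target then G e y else 0
      smooth := fun e he => (hGs e he).congr fun y hy => by simp [he, hy]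
      posDef := fun e he y hy => by
        have := hpos e he y hy
        simpa [he, hy] using this
      change := fun e he e' he' x hx hx' v w => by
        have h1 : e ∈ atlas P2 S ∧ e x ∈ e.target := ⟨he, e.map_source hx⟩
        have h2 : e' ∈ atlas P2 S ∧ e' x ∈ e'.target := ⟨he', e'.map_source hx'⟩
        rw [if_pos h1, if_pos h2]
        exact hchange e he e' he' x hx hx' v w
      zero_off := fun e y hey => by
        refine if_neg ?_
        rintro ⟨h1, h2⟩
        rcases hey with h3 | h3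
        · exact h3 h1
        · exact h3 h2 }
  refine ⟨h, fun e he K hKe hK r => ?_⟩
  refine (hGt e he K hKe hK r).congr_right fun y hy => ?_
  have h1 : G e =ᶠ[𝓝 y] h.comp e := by
    filter_upwards [e.open_target.mem_nhds (hKe hy)] with z hz
    exact (if_pos ⟨he, hz⟩).symm
  exact (h1.iteratedFDeriv ℝ r).eq_of_nhds

/-- The range is closed: the target is metrizable, so it is enough to treat sequences; `Theta A h = F` for the metric `h` of
`exists_limit_metric` by uniqueness of pointwise limits (for `Psi`: `gdet` is continuous and nonzero at the limit). -/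
theorem isClosed_range_Theta [IsManifold (modelWithCornersSelf ℝ P2) ∞ S] (A : Fam S) :
    IsClosed (Set.range (Theta A : RMetric S → Tgt A)) := by
  refine IsSeqClosed.isClosed ?_
  intro u F hu hF
  choose g hg using hu
  have hF' : Tendsto (fun n => Theta A (g n)) atTop (𝓝 F) := by
    refine hF.congr fun n => ?_
    exact (hg n).symm
  obtain ⟨h, hh⟩ := exists_limit_metric A hF'
  refine ⟨h, ?_⟩
  have hF1 : Tendsto (fun n => Phi A (g n)) atTop (𝓝 F.1) := (continuous_fst.tendsto F).comp hF'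
  have hF2 : Tendsto (fun n => Psi A (g n)) atTop (𝓝 F.2) := (continuous_snd.tendsto F).comp hF'
  refine Prod.ext ?_ ?_
  · funext p
    refine ContinuousMap.ext fun z => ?_
    have h1 : Tendsto (fun n => Phi A (g n) p z) atTop (𝓝 (F.1 p z)) := by
      have h3 := tendsto_pi_nhds.1 hF1 p
      have h4 : Continuous fun f : C(A.K p.1, P2 [×p.2]→L[ℝ] Bil) => f z := continuous_eval_const _
      exact (h4.tendsto _).comp h3
    have h2 : Tendsto (fun n => Phi A (g n) p z) atTop (𝓝 (Phi A h p z)) :=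
      (hh _ (A.he p.1) _ (A.hKe p.1) (A.hK p.1) p.2).tendsto_at z.2
    exact tendsto_nhds_unique h2 h1
  · funext i
    refine ContinuousMap.ext fun z => ?_
    have h1 : Tendsto (fun n => Psi A (g n) i z) atTop (𝓝 (F.2 i z)) := by
      have h3 := tendsto_pi_nhds.1 hF2 i
      have h4 : Continuous fun f : C(A.K i, ℝ) => f z := continuous_eval_const _
      exact (h4.tendsto _).comp h3
    have h3 : Tendsto (fun n => (g n).comp (A.e i) z) atTop (𝓝 (h.comp (A.e i) z)) :=
      ba6_zero (hh _ (A.he i) _ (A.hKe i) (A.hK i) 0) z.2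
    have h4 := gdet_pos (h.posDef _ (A.he i) z (A.hKe i z.2))
    have h2 : Tendsto (fun n => Psi A (g n) i z) atTop (𝓝 (Psi A h i z)) :=
      ((continuous_gdet.tendsto _).comp h3).inv₀ h4.ne'
    exact tendsto_nhds_unique h2 h1

end Pool.Agent.Helper82.BA
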