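import Pool.Agent.Helper82.BA.Change

/-!
# Finite families of compact pieces of charts (module CL-BA3)
-/

set_option maxSynthPendingDepth 3

namespace Pool.Agent.Helper82.BA

open Filter Topology Pool.Agent.Helper82.GS
open scoped ContDiff Manifold

/-- A finite family of charts with compact subsets of their targets whose interiors cover the surface. -/
structure Fam (S : Type*) [TopologicalSpace S] [ChartedSpace P2 S] where
  /-- number of charts -/
  m : ℕ
  /-- the charts -/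
  e : Fin m → OpenPartialHomeomorph S P2
  he : ∀ i, e i ∈ atlas P2 S
  /-- the compact sets -/
  K : Fin m → Set P2
  hK : ∀ i, IsCompact (K i)
  hKe : ∀ i, K i ⊆ (e i).target
  cover : ∀ x : S, ∃ i, x ∈ (e i).source ∧ e i x ∈ interior (K i)

variable {S : Type*} [TopologicalSpace S] [ChartedSpace P2 S]

/-- Around `x` take the chart `chartAt P2 x` and a closed ball of centre its value at `x` inside the target; compactness. -/
theorem exists_fam [CompactSpace S] : Nonempty (Fam S) := by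
  have h1 : ∀ x : S, ∃ ε > 0, Metric.closedBall (chartAt P2 x x) ε ⊆ (chartAt P2 x).target := by
    intro x
    have h2 : (chartAt P2 x).target ∈ 𝓝 (chartAt P2 x x) :=
      (chartAt P2 x).open_target.mem_nhds ((chartAt P2 x).map_source (mem_chart_source P2 x))
    exact Metric.nhds_basis_closedBall.mem_iff.1 h2
  choose ε hε hball using h1
  have h3 : ∀ x ∈ (Set.univ : Set S), (chartAt P2 x).source ∩
      (chartAt P2 x) ⁻¹' Metric.ball (chartAt P2 x x) (ε x) ∈ 𝓝 x := by
    intro x _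
    exact ((chartAt P2 x).isOpen_inter_preimage Metric.isOpen_ball).mem_nhds
      ⟨mem_chart_source P2 x, Metric.mem_ball_self (hε x)⟩
  obtain ⟨t, -, ht⟩ := isCompact_univ.elim_nhds_subcover _ h3
  refine ⟨⟨t.card, fun i => chartAt P2 (t.equivFin.symm i : S), fun i => chart_mem_atlas P2 _,
    fun i => Metric.closedBall (chartAt P2 (t.equivFin.symm i : S) (t.equivFin.symm i : S))
      (ε (t.equivFin.symm i : S)), fun i => isCompact_closedBall _ _, fun i => hball _, ?_⟩⟩
  intro x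
  obtain ⟨z, hz, hxz⟩ := Set.mem_iUnion₂.1 (ht (Set.mem_univ x))
  refine ⟨t.equivFin ⟨z, hz⟩, ?_⟩
  rw [Equiv.symm_apply_apply]
  exact ⟨hxz.1, interior_mono Metric.ball_subset_closedBall (by
    rw [Metric.isOpen_ball.interior_eq]
    exact hxz.2)⟩

/-- The derivatives in any chart are controlled by those on the family.

Proof.  For `y₀ ∈ K` there is `i` with `e i (e.symm y₀) ∈ interior (K i)`; for a small closed ball `V` around `y₀` (inside `e.target`) the
hypothesis `hKK` of `change_bound` holds on `V`; `IsCompact.induction_on` for the property `∃ C ≥ 0, ...` of subsets of `K`. -/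
theorem fam_bound [IsManifold (modelWithCornersSelf ℝ P2) ∞ S] (A : Fam S) {e : OpenPartialHomeomorph S P2} (he : e ∈ atlas P2 S)
    {K : Set P2} (hK : IsCompact K) (hKe : K ⊆ e.target) (r : ℕ) :
    ∃ C : ℝ, 0 ≤ C ∧ ∀ (g h : RMetric S) (δ : ℝ), 0 ≤ δ →
      (∀ i, ∀ j ≤ r, ∀ z ∈ A.K i, ‖iteratedFDeriv ℝ j (g.comp (A.e i)) z - iteratedFDeriv ℝ j (h.comp (A.e i)) z‖ ≤ δ) →
      ∀ y ∈ K, ‖iteratedFDeriv ℝ r (g.comp e) y - iteratedFDeriv ℝ r (h.comp e) y‖ ≤ C * δ := by
  refine IsCompact.induction_on (p := fun s : Set P2 => ∃ C : ℝ, 0 ≤ C ∧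
    ∀ (g h : RMetric S) (δ : ℝ), 0 ≤ δ →
      (∀ i, ∀ j ≤ r, ∀ z ∈ A.K i, ‖iteratedFDeriv ℝ j (g.comp (A.e i)) z - iteratedFDeriv ℝ j (h.comp (A.e i)) z‖ ≤ δ) →
      ∀ y ∈ s, ‖iteratedFDeriv ℝ r (g.comp e) y - iteratedFDeriv ℝ r (h.comp e) y‖ ≤ C * δ) hK ?_ ?_ ?_ ?_
  · exact ⟨0, le_rfl, fun _ _ _ _ _ y hy => absurd hy (Set.notMem_empty y)⟩
  · rintro s t hst ⟨C, hC, h⟩
    exact ⟨C, hC, fun g g' δ hδ H y hy => h g g' δ hδ H y (hst hy)⟩
  · rintro s t ⟨C, hC, h⟩ ⟨C', hC', h'⟩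
    refine ⟨max C C', le_max_of_le_left hC, fun g g' δ hδ H y hy => ?_⟩
    rcases hy with hy | hy
    · exact (h g g' δ hδ H y hy).trans (mul_le_mul_of_nonneg_right (le_max_left _ _) hδ)
    · exact (h' g g' δ hδ H y hy).trans (mul_le_mul_of_nonneg_right (le_max_right _ _) hδ)
  · intro y₀ hy₀
    obtain ⟨i, hi, hiK⟩ := A.cover (e.symm y₀)
    have hO1 : IsOpen ((A.e i).source ∩ (A.e i) ⁻¹' interior (A.K i)) :=
      (A.e i).isOpen_inter_preimage isOpen_interior
    have hO : IsOpen (e.target ∩ e.symm ⁻¹' ((A.e i).source ∩ (A.e i) ⁻¹' interior (A.K i))) :=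
      e.isOpen_inter_preimage_symm hO1
    obtain ⟨ε, hε, hball⟩ := Metric.nhds_basis_closedBall.mem_iff.1
      (hO.mem_nhds ⟨hKe hy₀, hi, hiK⟩)
    obtain ⟨C, hC, h⟩ := change_bound he (A.he i) (isCompact_closedBall y₀ ε)
      (fun y hy => (hball hy).1) (A.hKe i)
      (fun y hy => ⟨(hball hy).2.1, interior_subset (hball hy).2.2⟩) r
    refine ⟨Metric.closedBall y₀ ε, mem_nhdsWithin_of_mem_nhds (Metric.closedBall_mem_nhds y₀ hε),
      C, hC, fun g g' δ hδ H y hy => h g g' δ hδ (H i) y hy⟩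

end Pool.Agent.Helper82.BA
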