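import Pool.Agent.Helper82.BA.Closed
import Pool.Agent.Helper82.GS.Bridge

/-!
# The space of Riemannian metrics is a Baire space (module CL-BA7)
-/

set_option maxSynthPendingDepth 3

namespace Pool.Agent.Helper82.BA

open Filter Topology Pool.Agent.Helper82.GS
open scoped ContDiff Manifold

variable (S : Type*) [TopologicalSpace S] [CompactSpace S] [ChartedSpace P2 S] [IsManifold (modelWithCornersSelf ℝ P2) ∞ S]

theorem completelyMetrizable : TopologicalSpace.IsCompletelyMetrizableSpace (RMetric S) := by
  obtain ⟨A⟩ := exists_fam (S := S)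
  exact Topology.IsClosedEmbedding.IsCompletelyMetrizableSpace (f := Theta A)
    ⟨⟨isInducing_Theta A, injective_Theta A⟩, isClosed_range_Theta A⟩

theorem completelyMetrizable_stmt : TopologicalSpace.IsCompletelyMetrizableSpace (Stmt.RMetric P2 S) := by
  haveI := completelyMetrizable S
  have hc : IsClosedEmbedding (toR : Stmt.RMetric P2 S → RMetric S) :=
    (Homeomorph.mk ⟨toR, ofR, ofR_toR, toR_ofR⟩ continuous_toR continuous_ofR).isClosedEmbedding
  exact hc.IsCompletelyMetrizableSpace

theorem baireSpace_stmt : BaireSpace (Stmt.RMetric P2 S) := by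
  haveI := completelyMetrizable_stmt S
  infer_instance

end Pool.Agent.Helper82.BA
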