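import Pool.Agent.Helper82.BA.Maps

/-!
# The embedding of the space of metrics is inducing (module CL-BA5)
-/

set_option maxSynthPendingDepth 3

namespace Pool.Agent.Helper82.BA

open Filter Topology Pool.Agent.Helper82.GS
open scoped ContDiff Manifold

variable {S : Type*} [TopologicalSpace S] [ChartedSpace P2 S]

/-- Each component is continuous: `ContinuousMap.dist_lt_iff`, `isOpen_near`, `mem_near_self`. -/
theorem continuous_Phi (A : Fam S) (p : Fin A.m × ℕ) : Continuous fun g : RMetric S => Phi A g p := by
  rw [continuous_iff_continuousAt]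
  intro g₀
  refine (Metric.tendsto_nhds (u := fun g : RMetric S => Phi A g p) (a := Phi A g₀ p)).2 fun ε hε => ?_
  filter_upwards [(isOpen_near g₀ (A.he p.1) (A.hK p.1) (A.hKe p.1) p.2 ε).mem_nhds
    (mem_near_self g₀ (A.e p.1) (A.K p.1) p.2 hε)] with g hg
  rw [ContinuousMap.dist_lt_iff hε]
  intro z
  rw [dist_eq_norm]
  exact hg z z.2

/-- `g ↦ (g.comp (A.e i) restricted to A.K i) ∈ C(A.K i, {B // gdet B ≠ 0})` is continuous because its composition with the inclusion in `Bil`
is (`continuous_Phi` with `p = (i, 0)`, `iteratedFDeriv ℝ 0 f z` is `f z` up to an isometry; the composition with an embedding is an embedding of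
the spaces of continuous maps, `Topology.IsInducing.postcomp` or similar); then compose with the continuous map `B ↦ (gdet B)⁻¹`
(`ContinuousMap.continuous_postcomp`).  Or directly by a uniform estimate. -/
theorem continuous_Psi (A : Fam S) (i : Fin A.m) : Continuous fun g : RMetric S => Psi A g i := by
  refine ContinuousMap.continuous_of_continuous_uncurry _ ?_
  have h1 : Continuous fun q : RMetric S × A.K i => q.1.comp (A.e i) (q.2 : P2) := by
    have h2 : Continuous fun q : RMetric S × A.K i => (Phi A q.1 (i, 0)) q.2 :=
      ((continuous_Phi A (i, 0)).comp continuous_fst).eval continuous_snd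
    have h3 := (continuousMultilinearCurryFin0 ℝ P2 Bil).continuous.comp h2
    refine h3.congr fun q => ?_
    simp only [Function.comp_apply, continuousMultilinearCurryFin0_apply]
    exact iteratedFDeriv_zero_apply _
  have h4 : ∀ q : RMetric S × A.K i, gdet (q.1.comp (A.e i) (q.2 : P2)) ≠ 0 := fun q =>
    (gdet_pos (q.1.posDef (A.e i) (A.he i) q.2 (A.hKe i q.2.2))).ne'
  exact (continuous_gdet.comp h1).inv₀ h4

theorem continuous_Theta (A : Fam S) : Continuous (Theta A : RMetric S → Tgt A) :=
  Continuous.prodMk (continuous_pi fun p => continuous_Phi A p) (continuous_pi fun i => continuous_Psi A i)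

/-- The topology of the space of metrics is induced by `Theta A`.  `⟨le_antisymm ..⟩`: one direction is `continuous_Theta` (`Continuous.le_induced`);
the other: every `g₀.near e K r δ` is open in the induced topology: if `g` is in it then `g.near e K r δ' ⊆ g₀.near e K r δ`
(`exists_near_subset`), and by `fam_bound` (constant `C`) the set of the `h` with `dist (Phi A h (i, j)) (Phi A g (i, j)) < δ' / (C + 1)` for all `i` and
`j ≤ r` is contained in `g.near e K r δ'`. -/
theorem isInducing_Theta [IsManifold (modelWithCornersSelf ℝ P2) ∞ S] (A : Fam S) : IsInducing (Theta A : RMetric S → Tgt A) := by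
  refine ⟨le_antisymm (continuous_Theta A).le_induced ?_⟩
  refine le_generateFrom ?_
  rintro _ ⟨g₀, e, K, r, δ, he, hK, hKe, rfl⟩
  rw [@isOpen_iff_mem_nhds _ (TopologicalSpace.induced (Theta A) inferInstance)]
  intro g hg
  rw [nhds_induced, mem_comap]
  obtain ⟨δ', hδ', hsub⟩ := exists_near_subset he hK hKe hg
  obtain ⟨C, hC, hb⟩ := fam_bound A he hK hKe r
  have hη : 0 < δ' / (C + 1) := by positivity
  refine ⟨{q : Tgt A | ∀ i : Fin A.m, ∀ j ∈ Finset.range (r + 1),
    dist (q.1 (i, j)) (Phi A g (i, j)) < δ' / (C + 1)}, ?_, ?_⟩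
  · refine Filter.eventually_all.2 fun i => (Filter.eventually_all_finset _).2 fun j _ => ?_
    have h1 : Continuous fun q : Tgt A => dist (q.1 (i, j)) (Phi A g (i, j)) :=
      ((continuous_apply (i, j)).comp continuous_fst).dist continuous_const
    refine h1.continuousAt.eventually_lt continuousAt_const ?_
    change dist (Phi A g (i, j)) (Phi A g (i, j)) < δ' / (C + 1)
    rw [dist_self]
    exact hη
  · intro h hh
    apply hsub
    intro y hy
    refine (hb h g (δ' / (C + 1)) hη.le (fun i j hj z hz => ?_) y hy).trans_lt ?_
    · have h1 : dist (Phi A h (i, j)) (Phi A g (i, j)) < δ' / (C + 1) :=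
        hh i j (Finset.mem_range.2 (Nat.lt_succ_of_le hj))
      have h2 := ContinuousMap.dist_apply_le_dist (f := Phi A h (i, j)) (g := Phi A g (i, j)) ⟨z, hz⟩
      rw [dist_eq_norm] at h2
      exact h2.trans h1.le
    · rw [mul_div_assoc', div_lt_iff₀ (by positivity)]
      nlinarith

end Pool.Agent.Helper82.BA
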