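import Pool.Agent.Helper82.BA.Fam

/-!
# The embedding of the space of metrics: definition and injectivity (module CL-BA4)
-/

set_option maxSynthPendingDepth 3

namespace Pool.Agent.Helper82.BA

open Filter Topology Pool.Agent.Helper82.GS
open scoped ContDiff Manifold

/-- The Gram determinant of a bilinear form. -/
noncomputable def gdet (B : Bil) : ℝ :=
  B (EuclideanSpace.single 0 1) (EuclideanSpace.single 0 1) * B (EuclideanSpace.single 1 1) (EuclideanSpace.single 1 1) -
    B (EuclideanSpace.single 0 1) (EuclideanSpace.single 1 1) ^ 2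

theorem continuous_gdet : Continuous gdet := by
  unfold gdet
  fun_prop

theorem bil_expand (B : Bil) (hs : ∀ v w, B v w = B w v) (x y : ℝ) :
    B (x • EuclideanSpace.single 0 1 + y • EuclideanSpace.single 1 1) (x • EuclideanSpace.single 0 1 + y • EuclideanSpace.single 1 1) =
      x ^ 2 * B (EuclideanSpace.single 0 1) (EuclideanSpace.single 0 1) +
      2 * (x * y) * B (EuclideanSpace.single 0 1) (EuclideanSpace.single 1 1) +
      y ^ 2 * B (EuclideanSpace.single 1 1) (EuclideanSpace.single 1 1) := by
  simp only [map_add, map_smul, ContinuousLinearMap.add_apply, ContinuousLinearMap.smul_apply, smul_eq_mul]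
  rw [hs (EuclideanSpace.single 1 1) (EuclideanSpace.single 0 1)]
  ring

theorem eq_sum' (v : P2) : v = v 0 • EuclideanSpace.single 0 1 + v 1 • EuclideanSpace.single 1 1 := by
  ext i
  fin_cases i <;> simp

theorem rmetric_ext {S : Type*} [TopologicalSpace S] [ChartedSpace P2 S] {g g' : RMetric S}
    (h : ∀ e y, g.comp e y = g'.comp e y) : g = g' := by
  cases g
  cases g'
  congr
  funext e y
  exact h e y

theorem pos_of_mul_pos_of_pos_left' {a b : ℝ} (h : 0 < a * b) (ha : 0 < a) : 0 < b := by
  by_contra hb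
  push Not at hb
  exact absurd h (not_lt.mpr (mul_nonpos_of_nonneg_of_nonpos ha.le hb))

theorem single_ne : (EuclideanSpace.single 0 1 : P2) ≠ 0 := by
  intro h
  have := congrArg (fun v : P2 => v 0) h
  simp at this

theorem gdet_pos {B : Bil} (h : PosDef B) : 0 < gdet B := by
  have ha := h.2 _ single_ne
  have h1 := h.2 (-B (EuclideanSpace.single 0 1) (EuclideanSpace.single 1 1) • EuclideanSpace.single 0 1 +
    B (EuclideanSpace.single 0 1) (EuclideanSpace.single 0 1) • EuclideanSpace.single 1 1) (by
      intro h0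
      have := congrArg (fun v : P2 => v 1) h0
      simp at this
      exact ha.ne' this)
  rw [bil_expand B h.1] at h1
  unfold gdet
  set a := B (EuclideanSpace.single 0 1) (EuclideanSpace.single 0 1)
  set b := B (EuclideanSpace.single 0 1) (EuclideanSpace.single 1 1)
  set c := B (EuclideanSpace.single 1 1) (EuclideanSpace.single 1 1)
  have h2 : 0 < a * (a * c - b ^ 2) := by
    have : (-b) ^ 2 * a + 2 * (-b * a) * b + a ^ 2 * c = a * (a * c - b ^ 2) := by ring
    rw [this] at h1
    exact h1
  exact pos_of_mul_pos_of_pos_left' h2 ha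

/-- A symmetric positive semidefinite form with nonzero determinant is positive definite. -/
theorem posDef_of_gdet {B : Bil} (hs : ∀ v w, B v w = B w v) (h0 : ∀ v, 0 ≤ B v v) (hd : gdet B ≠ 0) : PosDef B := by
  refine ⟨hs, fun v hv => lt_of_le_of_ne (h0 v) fun hvv => hv ?_⟩
  have hcs : ∀ w, B v w = 0 := by
    intro w
    by_contra hne
    have h1 := h0 ((-(B w w + 1) / (2 * B v w)) • v + w)
    have h2 : B ((-(B w w + 1) / (2 * B v w)) • v + w) ((-(B w w + 1) / (2 * B v w)) • v + w) =
        (-(B w w + 1) / (2 * B v w)) ^ 2 * B v v + 2 * ((-(B w w + 1) / (2 * B v w)) * B v w) + B w w := by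
      simp only [map_add, map_smul, ContinuousLinearMap.add_apply, ContinuousLinearMap.smul_apply, smul_eq_mul]
      rw [hs w v]
      ring
    have h3 : 2 * ((-(B w w + 1) / (2 * B v w)) * B v w) = -(B w w + 1) := by
      field_simp
    rw [h2, ← hvv, h3] at h1
    linarith
  have e0 := hcs (EuclideanSpace.single 0 1)
  have e1 := hcs (EuclideanSpace.single 1 1)
  rw [eq_sum' v] at e0 e1
  simp only [map_add, map_smul, ContinuousLinearMap.add_apply, ContinuousLinearMap.smul_apply, smul_eq_mul] at e0 e1
  rw [hs (EuclideanSpace.single 1 1) (EuclideanSpace.single 0 1)] at e0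
  unfold gdet at hd
  have h4 : v 0 = 0 := by
    refine (mul_eq_zero.mp ?_).resolve_right hd
    linear_combination (B (EuclideanSpace.single 1 1) (EuclideanSpace.single 1 1)) * e0 -
      (B (EuclideanSpace.single 0 1) (EuclideanSpace.single 1 1)) * e1
  have h5 : v 1 = 0 := by
    refine (mul_eq_zero.mp ?_).resolve_right hd
    linear_combination (B (EuclideanSpace.single 0 1) (EuclideanSpace.single 0 1)) * e1 -
      (B (EuclideanSpace.single 0 1) (EuclideanSpace.single 1 1)) * e0
  rw [eq_sum' v, h4, h5]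
  simp

variable {S : Type*} [TopologicalSpace S] [ChartedSpace P2 S]

instance (A : Fam S) (i : Fin A.m) : CompactSpace (A.K i) := isCompact_iff_compactSpace.mp (A.hK i)

/-- The derivatives of a metric on the pieces of the family. -/
noncomputable def Phi (A : Fam S) (g : RMetric S) (p : Fin A.m × ℕ) : C(A.K p.1, P2 [×p.2]→L[ℝ] Bil) :=
  ⟨fun z => iteratedFDeriv ℝ p.2 (g.comp (A.e p.1)) z,
    (continuousOn_iter g (A.he p.1) (A.hKe p.1) p.2).domRestrict⟩

theorem continuous_gdet_inv (A : Fam S) (g : RMetric S) (i : Fin A.m) :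
    Continuous fun z : A.K i => (gdet (g.comp (A.e i) z))⁻¹ := by
  have h1 : ContinuousOn (g.comp (A.e i)) (A.K i) :=
    ((g.smooth (A.e i) (A.he i)).continuousOn).mono (A.hKe i)
  have h2 : Continuous fun z : A.K i => g.comp (A.e i) z := continuousOn_iff_continuous_domRestrict.mp h1
  refine (continuous_gdet.comp h2).inv₀ fun z => ?_
  exact (gdet_pos (g.posDef (A.e i) (A.he i) z (A.hKe i z.2))).ne'

/-- The inverse of the determinant of a metric on the pieces of the family. -/
noncomputable def Psi (A : Fam S) (g : RMetric S) (i : Fin A.m) : C(A.K i, ℝ) :=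
  ⟨fun z => (gdet (g.comp (A.e i) z))⁻¹, continuous_gdet_inv A g i⟩

theorem cms {X F : Type*} [TopologicalSpace X] [CompactSpace X] [NormedAddCommGroup F] [CompleteSpace F] :
    TopologicalSpace.IsCompletelyMetrizableSpace C(X, F) :=
  TopologicalSpace.IsCompletelyMetrizableSpace.of_completeSpace_metrizable

instance inst1 (A : Fam S) (p : Fin A.m × ℕ) :
    TopologicalSpace.IsCompletelyMetrizableSpace C(A.K p.1, P2 [×p.2]→L[ℝ] Bil) := cms

instance inst2 (A : Fam S) (i : Fin A.m) : TopologicalSpace.IsCompletelyMetrizableSpace C(A.K i, ℝ) := cms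

instance inst3 (A : Fam S) : TopologicalSpace.IsCompletelyMetrizableSpace (∀ i : Fin A.m, C(A.K i, ℝ)) :=
  TopologicalSpace.IsCompletelyMetrizableSpace.pi_countable

instance inst4 (A : Fam S) :
    TopologicalSpace.IsCompletelyMetrizableSpace (∀ p : Fin A.m × ℕ, C(A.K p.1, P2 [×p.2]→L[ℝ] Bil)) :=
  TopologicalSpace.IsCompletelyMetrizableSpace.pi_countable

/-- The space in which the metrics are embedded. -/
abbrev Tgt (A : Fam S) := (∀ p : Fin A.m × ℕ, C(A.K p.1, P2 [×p.2]→L[ℝ] Bil)) × (∀ i : Fin A.m, C(A.K i, ℝ))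

/-- The embedding. -/
noncomputable def Theta (A : Fam S) (g : RMetric S) : Tgt A := (Phi A g, Psi A g)

/-- If the values `g.comp (A.e i) z`, `z ∈ A.K i`, of two metrics agree (order `0` in `Phi`), the metrics agree: `A.cover` and
`RMetric.change`; `RMetric.ext'`. -/
theorem injective_Theta (A : Fam S) : Function.Injective (Theta A) := by
  intro g g' h
  have h0 : Phi A g = Phi A g' := congrArg Prod.fst h
  have h1 : ∀ i, ∀ z ∈ A.K i, g.comp (A.e i) z = g'.comp (A.e i) z := by
    intro i z hz
    have h2 : Phi A g (i, 0) = Phi A g' (i, 0) := congrFun h0 (i, 0)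
    have h3 : iteratedFDeriv ℝ 0 (g.comp (A.e i)) z = iteratedFDeriv ℝ 0 (g'.comp (A.e i)) z :=
      congrArg (fun f : C(A.K i, P2 [×0]→L[ℝ] Bil) => f ⟨z, hz⟩) h2
    have h4 := congrArg (fun f : P2 [×0]→L[ℝ] Bil => f (fun _ => 0)) h3
    simpa only [iteratedFDeriv_zero_apply] using h4
  refine rmetric_ext fun e y => ?_
  by_cases hy : e ∉ atlas P2 S ∨ y ∉ e.target
  · rw [g.zero_off e y hy, g'.zero_off e y hy]
  · push Not at hy
    obtain ⟨he, hy⟩ := hy
    obtain ⟨i, hi, hiK⟩ := A.cover (e.symm y)
    have hx : e.symm y ∈ e.source := e.map_target hy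
    have hey : e (e.symm y) = y := e.right_inv hy
    ext1 v
    ext1 w
    have h5 := g.change e he (A.e i) (A.he i) (e.symm y) hx hi v w
    have h6 := g'.change e he (A.e i) (A.he i) (e.symm y) hx hi v w
    rw [hey] at h5 h6
    rw [h5, h6, h1 i _ (interior_subset hiK)]

instance inst5 (A : Fam S) : TopologicalSpace.IsCompletelyMetrizableSpace (Tgt A) :=
  TopologicalSpace.IsCompletelyMetrizableSpace.prod

end Pool.Agent.Helper82.BA
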